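import Mathlib
import Pool.Agent.H84.SP.Gadget

/-!
# Two gadgets that hide a colour in bits

The positions are the nonzero vectors `v b` of `F_2 ^ ρ` or of `F_3 ^ ρ`, the colour of a set of
positions is the sum of its vectors.  In the first case fewer than `2 ^ (ρ - 1)` positions carry no
information on the colour (Hamming code), in the second case fewer than `3 ^ (ρ - 1)` positions,
for a suitable product measure.
-/

open Finset

namespace Pool.Agent.H97.MSP

section generic

variable {F : Type*} [Field F] {G : Type} [AddCommGroup G] {ι : Type} [DecidableEq ι]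

open Classical in
/-- the weight of the sets of positions in `T` with colour `y` -/
noncomputable def ff (v : ι → G) (p q : F) (T : Finset ι) (y : G) : F :=
  ∑ z ∈ T.powerset, if ∑ b ∈ z, v b = y then p ^ z.card * q ^ (T.card - z.card) else 0

theorem ff_insert (v : ι → G) (p q : F) (T : Finset ι) (a : ι) (ha : a ∉ T) (y : G) :
    ff v p q (insert a T) y = q * ff v p q T y + p * ff v p q T (y - v a) := by
  classical
  unfold ff
  rw [Finset.sum_powerset_insert ha, Finset.mul_sum, Finset.mul_sum]
  congr 1
  · apply Finset.sum_congr rfl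
    intro z hz
    rw [Finset.mem_powerset] at hz
    have hc : z.card ≤ T.card := Finset.card_le_card hz
    by_cases h : ∑ b ∈ z, v b = y
    · rw [if_pos h, if_pos h, Finset.card_insert_of_notMem ha,
        show T.card + 1 - z.card = (T.card - z.card) + 1 by omega, pow_succ]
      ring
    · rw [if_neg h, if_neg h, mul_zero]
  · apply Finset.sum_congr rfl
    intro z hz
    rw [Finset.mem_powerset] at hz
    have hc : z.card ≤ T.card := Finset.card_le_card hz
    have haz : a ∉ z := fun h => ha (hz h)
    have hs : (∑ b ∈ insert a z, v b = y) ↔ (∑ b ∈ z, v b = y - v a) := by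
      rw [Finset.sum_insert haz]
      constructor
      · intro h; rw [← h]; abel
      · intro h; rw [h]; abel
    by_cases h : ∑ b ∈ z, v b = y - v a
    · rw [if_pos (hs.mpr h), if_pos h, Finset.card_insert_of_notMem ha,
        Finset.card_insert_of_notMem haz,
        show T.card + 1 - (z.card + 1) = T.card - z.card by omega, pow_succ]
      ring
    · rw [if_neg (fun h' => h (hs.mp h')), if_neg h, mul_zero]

omit [DecidableEq ι] in
theorem ff_total [Fintype G] (v : ι → G) (p q : F) (T : Finset ι) :
    ∑ y : G, ff v p q T y = (p + q) ^ T.card := by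
  classical
  unfold ff
  rw [Finset.sum_comm, ← Finset.sum_pow_mul_eq_add_pow]
  apply Finset.sum_congr rfl
  intro z _
  rw [Finset.sum_ite_eq]
  simp

/-- the periods of `ff` -/
def per (v : ι → G) (p q : F) (T : Finset ι) : AddSubgroup G where
  carrier := {u | ∀ y, ff v p q T (y + u) = ff v p q T y}
  zero_mem' := by intro y; rw [add_zero]
  add_mem' := by
    intro u w hu hw y
    rw [← add_assoc, hw (y + u), hu y]
  neg_mem' := by
    intro u hu y
    have h := hu (y + -u)
    rw [neg_add_cancel_right] at h
    exact h.symm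

omit [DecidableEq ι] in
theorem mem_per (v : ι → G) (p q : F) (T : Finset ι) (u : G) :
    u ∈ per v p q T ↔ ∀ y, ff v p q T (y + u) = ff v p q T y := Iff.rfl

open Classical in
/-- a gadget from a family of vectors -/
theorem gadget_gen [Fintype G] (p q : F) (hpq : p + q = 1) (r d : ℕ) (hd : 0 < d)
    (v : Fin r → G)
    (hper : ∀ T : Finset (Fin r), r < T.card + d → ∀ u y, ff v p q T (y + u) = ff v p q T y)
    (H : Type) [Fintype H] (hH : Fintype.card H ≤ Fintype.card G) :
    ∃ gam P, Pool.Agent.H84.SP.Gadget F r d H gam P := by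
  obtain ⟨j⟩ : Nonempty (H ↪ G) := Function.Embedding.nonempty_of_card_le hH
  set c : F := (Fintype.card G : F) with hc
  let gam : Finset (Fin r) → Option H := fun z =>
    if h : ∃ y, j y = ∑ b ∈ z, v b then some h.choose else none
  have hgam : ∀ z y, gam z = some y ↔ ∑ b ∈ z, v b = j y := by
    intro z y
    simp only [gam]
    split_ifs with h
    · rw [Option.some_inj]
      constructor
      · intro h'
        rw [← h', h.choose_spec]
      · intro h'
        exact j.injective (by rw [h.choose_spec, h'])
    · constructor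
      · intro h'; exact absurd h' (by simp)
      · intro h'; exact absurd ⟨y, h'.symm⟩ h
  refine ⟨gam, fun z => c * (p ^ z.card * q ^ (r - z.card)), ?_, ?_⟩
  · intro B hB
    refine ⟨c * q ^ B.card * ff v p q Bᶜ 0, ?_⟩
    intro y
    have hcard : Bᶜ.card = r - B.card := by
      rw [Finset.card_compl, Fintype.card_fin]
    have hBr : B.card ≤ r := by
      have := Finset.card_le_univ B
      rwa [Fintype.card_fin] at this
    have h0 : ff v p q Bᶜ 0 = ff v p q Bᶜ (j y) := by
      have := hper Bᶜ (by omega) (j y) 0
      rw [zero_add] at this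
      exact this.symm
    rw [h0, ff, Finset.mul_sum]
    have hpow : (Bᶜ.powerset : Finset (Finset (Fin r)))
        = Finset.univ.filter (fun z => Disjoint z B) := by
      ext z
      simp only [Finset.mem_powerset, Finset.mem_filter, Finset.mem_univ, true_and]
      rw [Finset.subset_compl_iff_disjoint_right]
    rw [hpow, Finset.sum_filter]
    apply Finset.sum_congr rfl
    intro z _
    by_cases hz : Disjoint z B
    · rw [if_pos hz]
      have hz' : z.card ≤ Bᶜ.card := Finset.card_le_card (by
        rw [Finset.subset_compl_iff_disjoint_right]; exact hz)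
      by_cases hy : ∑ b ∈ z, v b = j y
      · rw [if_pos ⟨(hgam z y).mpr hy, hz⟩, if_pos hy]
        have e : r - z.card = B.card + (Bᶜ.card - z.card) := by omega
        show c * (p ^ z.card * q ^ (r - z.card)) = _
        rw [e, pow_add]
        ring
      · rw [if_neg (fun h => hy ((hgam z y).mp h.1)), if_neg hy, mul_zero]
    · rw [if_neg hz, if_neg (fun h => hz h.2)]
  · intro y
    have htot := ff_total v p q (Finset.univ : Finset (Fin r))
    rw [hpq, one_pow] at htot
    have hall : ∀ g : G, ff v p q (Finset.univ : Finset (Fin r)) g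
        = ff v p q (Finset.univ : Finset (Fin r)) (j y) := by
      intro g
      have := hper Finset.univ (by rw [Finset.card_univ, Fintype.card_fin]; omega) (g - j y) (j y)
      rw [add_sub_cancel] at this
      exact this
    rw [Finset.sum_congr rfl (fun g _ => hall g), Finset.sum_const, Finset.card_univ,
      nsmul_eq_mul, ← hc] at htot
    rw [← htot, ff, Finset.mul_sum, Finset.powerset_univ]
    apply Finset.sum_congr rfl
    intro z _
    rw [Finset.card_univ, Fintype.card_fin]
    by_cases hy : ∑ b ∈ z, v b = j y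
    · rw [if_pos ((hgam z y).mpr hy), if_pos hy]
    · rw [if_neg (fun h => hy ((hgam z y).mp h)), if_neg hy, mul_zero]

/-- two-torsion: every `v a` with `a ∈ T` is a period -/
theorem per_two (hG : ∀ g : G, g + g = 0) (v : ι → G) (T : Finset ι) (a : ι)
    (ha : a ∈ T) : v a ∈ per v (1 / 2 : F) (1 / 2) T := by
  rw [mem_per]
  intro y
  rw [← Finset.insert_erase ha, ff_insert v _ _ _ a (Finset.notMem_erase a T),
    ff_insert v _ _ _ a (Finset.notMem_erase a T), add_sub_cancel_right]
  have e : y - v a = y + v a := by
    have := hG (v a)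
    rw [sub_eq_add_neg, neg_eq_of_add_eq_zero_left this]
  rw [e]
  ring

/-- three-torsion: `v a` is a period if `T` contains `a` and a position with the opposite vector -/
theorem per_three (hG : ∀ g : G, g + g + g = 0) (p q : F) (hpq : p ^ 2 + q ^ 2 = p * q)
    (v : ι → G) (T : Finset ι) (a a' : ι) (ha : a ∈ T) (ha' : a' ∈ T) (hne : a' ≠ a)
    (hv : v a' = - v a) : v a ∈ per v p q T := by
  rw [mem_per]
  have h1 : a' ∈ T.erase a := Finset.mem_erase.mpr ⟨hne, ha'⟩
  have h2 : a' ∉ (T.erase a).erase a' := Finset.notMem_erase _ _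
  have h3 : a ∉ insert a' ((T.erase a).erase a') := by
    rw [Finset.insert_erase h1]; exact Finset.notMem_erase _ _
  have hT : T = insert a (insert a' ((T.erase a).erase a')) := by
    rw [Finset.insert_erase h1, Finset.insert_erase ha]
  intro y
  rw [hT]
  simp only [ff_insert v p q _ a h3, ff_insert v p q _ a' h2, hv]
  have e1 : y + v a - v a = y := by abel
  have e2 : y + v a - - v a = y - v a := by
    have := hG (v a)
    calc y + v a - - v a = (y - v a) + (v a + v a + v a) := by abel
      _ = y - v a := by rw [this, add_zero]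
  have e3 : y - - v a = y + v a := by abel
  have e4 : y + v a - v a - - v a = y + v a := by abel
  have e5 : y - v a - - v a = y := by abel
  rw [e1, e2, e3, e5]
  linear_combination (ff v p q ((T.erase a).erase a') (y + v a)
    - ff v p q ((T.erase a).erase a') y) * hpq

end generic

theorem zmod3_tor : ∀ x : ZMod 3, x + x + x = 0 := by decide

theorem top_of_card {G : Type} [AddCommGroup G] [Fintype G] (l ρ : ℕ) (hl : l.Prime)
    (hG : Fintype.card G = l ^ ρ) (K : AddSubgroup G) (h : l ^ (ρ - 1) < Nat.card K) : K = ⊤ := by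
  have hd : Nat.card K ∣ Nat.card G := AddSubgroup.card_addSubgroup_dvd_card K
  rw [Nat.card_eq_fintype_card (α := G), hG] at hd
  obtain ⟨j, hj, hj2⟩ := (Nat.dvd_prime_pow hl).mp hd
  have hjr : ρ - 1 < j := by
    by_contra hcon
    have : l ^ j ≤ l ^ (ρ - 1) := Nat.pow_le_pow_right hl.pos (by omega)
    omega
  apply AddSubgroup.eq_top_of_card_eq
  rw [hj2, Nat.card_eq_fintype_card (α := G), hG, show j = ρ by omega]

theorem card_le_of_subset {G : Type} [AddCommGroup G] [Fintype G] (K : AddSubgroup G)
    (S : Finset G) (h : ∀ g ∈ S, g ∈ K) : S.card ≤ Nat.card K := by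
  classical
  have h1 : Nat.card K = (Finset.univ.filter (fun g : G => g ∈ K)).card := by
    rw [Nat.card_eq_fintype_card, Fintype.card_subtype]
  rw [h1]
  exact Finset.card_le_card (fun g hg => Finset.mem_filter.mpr ⟨Finset.mem_univ _, h g hg⟩)

/-- the nonzero vectors, listed -/
theorem exists_list (l ρ : ℕ) [Fact l.Prime] :
    ∃ v : Fin (l ^ ρ - 1) → (Fin ρ → ZMod l), Function.Injective v ∧ (∀ b, v b ≠ 0) ∧
      ∀ g, g ≠ 0 → ∃ b, v b = g := by
  classical
  have : NeZero l := ⟨(Fact.out : l.Prime).ne_zero⟩
  have hc : Fintype.card {g : Fin ρ → ZMod l // g ≠ 0} = l ^ ρ - 1 := by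
    have h := Fintype.card_subtype_compl (fun g : Fin ρ → ZMod l => g = 0)
    have h1 : Fintype.card {g : Fin ρ → ZMod l // g = 0} = 1 := Fintype.card_subtype_eq 0
    have h2 : Fintype.card (Fin ρ → ZMod l) = l ^ ρ := by simp [ZMod.card]
    rw [h1, h2] at h
    exact h
  let e := Fintype.equivFinOfCardEq hc
  refine ⟨fun b => (e.symm b).1, ?_, fun b => (e.symm b).2, ?_⟩
  · intro a b hab
    exact e.symm.injective (Subtype.ext hab)
  · intro g hg
    exact ⟨e ⟨g, hg⟩, by simp⟩

/-- THE BINARY GADGET -/
theorem gadget_two (F : Type*) [Field F] (h2 : (2 : F) ≠ 0) (r0 : ℕ) (_hr : 1 ≤ r0) (H : Type)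
    [Fintype H] (hH : Fintype.card H ≤ 2 ^ r0) :
    ∃ gam P, Pool.Agent.H84.SP.Gadget F (2 ^ r0 - 1) (2 ^ (r0 - 1)) H gam P := by
  classical
  have : Fact (Nat.Prime 2) := ⟨Nat.prime_two⟩
  obtain ⟨v, hinj, hne, _⟩ := exists_list 2 r0
  have hG : Fintype.card (Fin r0 → ZMod 2) = 2 ^ r0 := by simp [ZMod.card]
  refine gadget_gen (1 / 2 : F) (1 / 2) (by field_simp; norm_num) (2 ^ r0 - 1) (2 ^ (r0 - 1))
    (by positivity) v ?_ H (by rw [hG]; exact hH)
  intro T hT u y
  have htop : per v (1 / 2 : F) (1 / 2) T = ⊤ := by
    apply top_of_card 2 r0 Nat.prime_two hG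
    have h0 : (0 : Fin r0 → ZMod 2) ∉ T.image v := by
      rw [Finset.mem_image]
      rintro ⟨b, _, hb⟩
      exact hne b hb
    have hc := card_le_of_subset (per v (1 / 2 : F) (1 / 2) T) (insert 0 (T.image v)) (by
      intro g hg
      rw [Finset.mem_insert] at hg
      rcases hg with rfl | hg
      · exact AddSubgroup.zero_mem _
      · obtain ⟨b, hb, rfl⟩ := Finset.mem_image.mp hg
        refine per_two ?_ v T b hb
        intro g
        funext i
        exact CharTwo.add_self_eq_zero _)
    rw [Finset.card_insert_of_notMem h0, Finset.card_image_of_injective _ hinj] at hc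
    have h3 : 2 ^ r0 = 2 * 2 ^ (r0 - 1) := by
      rw [← pow_succ']; congr 1; omega
    omega
  have := AddSubgroup.mem_top (G := Fin r0 → ZMod 2) u
  rw [← htop] at this
  exact this y

/-- THE TERNARY GADGET -/
theorem gadget_three (F : Type*) [Field F] (w : F) (hw : w ^ 2 + w + 1 = 0) (h3 : (3 : F) ≠ 0)
    (ρ : ℕ) (hρ : 1 ≤ ρ) (H : Type) [Fintype H] (hH : Fintype.card H ≤ 3 ^ ρ) :
    ∃ gam P, Pool.Agent.H84.SP.Gadget F (3 ^ ρ - 1) (3 ^ (ρ - 1)) H gam P := by
  classical
  have : Fact (Nat.Prime 3) := ⟨Nat.prime_three⟩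
  obtain ⟨v, hinj, hne, hsurj⟩ := exists_list 3 ρ
  have hG : Fintype.card (Fin ρ → ZMod 3) = 3 ^ ρ := by simp [ZMod.card]
  have htor : ∀ g : Fin ρ → ZMod 3, g + g + g = 0 := by
    intro g
    funext i
    exact zmod3_tor (g i)
  have hw1 : 1 - w ≠ 0 := by
    intro h
    have hw' : w = 1 := (sub_eq_zero.mp h).symm
    rw [hw'] at hw
    apply h3
    linear_combination hw
  have hpq1 : 1 / (1 - w) + (- w) / (1 - w) = 1 := by
    rw [← add_div, ← sub_eq_add_neg, div_self hw1]
  have hpq2 : (1 / (1 - w)) ^ 2 + ((- w) / (1 - w)) ^ 2 = (1 / (1 - w)) * ((- w) / (1 - w)) := by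
    field_simp
    linear_combination hw
  refine gadget_gen (1 / (1 - w)) ((- w) / (1 - w)) hpq1 (3 ^ ρ - 1) (3 ^ (ρ - 1))
    (by positivity) v ?_ H (by rw [hG]; exact hH)
  intro T hT u y
  -- the opposite position
  have hneg : ∀ b, ∃ b', v b' = - v b := fun b => hsurj _ (neg_ne_zero.mpr (hne b))
  choose ng hng using hneg
  have hnginj : Function.Injective ng := by
    intro a b hab
    apply hinj
    have h1 := hng a
    rw [hab, hng b] at h1
    exact (neg_injective h1).symm
  set A : Finset (Fin (3 ^ ρ - 1)) := T.filter (fun a => ng a ∈ T) with hA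
  have hAc : T.card ≤ A.card + (3 ^ ρ - 1 - T.card) := by
    have h1 : (T.filter (fun a => ¬ ng a ∈ T)).card ≤ Tᶜ.card := by
      rw [← Finset.card_image_of_injective (T.filter (fun a => ¬ ng a ∈ T)) hnginj]
      apply Finset.card_le_card
      intro x hx
      obtain ⟨a, ha, rfl⟩ := Finset.mem_image.mp hx
      rw [Finset.mem_compl]
      exact (Finset.mem_filter.mp ha).2
    have h2 : A.card + (T.filter (fun a => ¬ ng a ∈ T)).card = T.card := by
      rw [hA]
      exact Finset.card_filter_add_card_filter_not (s := T) (fun a => ng a ∈ T)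
    rw [Finset.card_compl, Fintype.card_fin] at h1
    omega
  have hTr : T.card ≤ 3 ^ ρ - 1 := by
    have := Finset.card_le_univ T
    rwa [Fintype.card_fin] at this
  have htop : per v (1 / (1 - w)) ((- w) / (1 - w)) T = ⊤ := by
    apply top_of_card 3 ρ Nat.prime_three hG
    have h0 : (0 : Fin ρ → ZMod 3) ∉ A.image v := by
      rw [Finset.mem_image]
      rintro ⟨b, _, hb⟩
      exact hne b hb
    have hc := card_le_of_subset (per v (1 / (1 - w)) ((- w) / (1 - w)) T)
      (insert 0 (A.image v)) (by
        intro g hg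
        rw [Finset.mem_insert] at hg
        rcases hg with rfl | hg
        · exact AddSubgroup.zero_mem _
        · obtain ⟨b, hb, rfl⟩ := Finset.mem_image.mp hg
          rw [hA, Finset.mem_filter] at hb
          refine per_three htor _ _ hpq2 v T b (ng b) hb.1 hb.2 ?_ (hng b)
          intro hbb
          have h5 := hng b
          rw [hbb] at h5
          -- v b = - v b, so v b = 0
          have h6 := htor (v b)
          have h7 : v b + v b = 0 := by
            nth_rw 2 [h5]
            exact add_neg_cancel _
          rw [h7, zero_add] at h6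
          exact hne b h6)
    rw [Finset.card_insert_of_notMem h0, Finset.card_image_of_injective _ hinj] at hc
    have h4 : 3 ^ ρ = 3 * 3 ^ (ρ - 1) := by
      rw [← pow_succ']; congr 1; omega
    omega
  have := AddSubgroup.mem_top (G := Fin ρ → ZMod 3) u
  rw [← htop] at this
  exact this y

end Pool.Agent.H97.MSP
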